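import Pool.Agent.P8H36.FD.Main
import Pool.Agent.P8H76.FD.Lin
import Pool.Agent.P8H45.FD.Ari
import Pool.Agent.P8H76.FD.Dgr
import Pool.Agent.P8H86.FD.Lur
import Pool.Agent.P8H68.FD.Cmp
import Pool.Agent.P8H82.FD.Rhz

/-!
# The field degree of trapezoidal pairs with nonzero bracket

Let `F`, `G` satisfy the conditions and suppose that `[F, G]` is a nonzero constant. Then there are positive integers `l`, `w` such that
`w` divides `a` and `b l - 1`, or `w` divides `b` and `a l - 1`, and the degree `N` of `ℂ(x, y)` over `ℂ(F, G)` (the number of points of a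
general fibre of the map `(F, G)`) is at least `a b l / w`. For instance `N ≥ 15` for `(a, b) = (5, 7)`. So the problem has a positive answer for all pairs for which this degree is smaller
than the minimum of these numbers, for example smaller than `b`; than `b + 1` if `a` does not divide `b - 1`; than `2 b` if moreover `a`
does not divide `v + 1` for any divisor `v` of `b`.

Proof. The tree of Newton polygon edges of the starting files is followed to a terminal edge. There the leading polynomials `f`, `g` of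
`F`, `G` have degrees `a l`, `b l` and `a H f g' - b H f' g` is a nonzero constant. Put `φ = f ^ b / g ^ a` and `ψ = f g' / (f' g)`, the
residues of `F ^ b / G ^ a` and of `F G_y / (F_y G)` at the divisor of the edge. Then `N` is at least the degree of `ψ` over `ℂ(φ)`, which is
`a b l / w`, where `w` is the degree of `ℂ(z)` over `ℂ(φ, ψ)`. The field `ℂ(φ, ψ)` contains the polynomial `f' g`, so by the theorem of
Lüroth it is generated by a polynomial `θ` of degree `w`. The critical points of `θ` are roots of `f g`; as `f` and `g` are squarefree and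
`f ^ b`, `g ^ a` are polynomials in `θ`, all the points over a critical value have the same multiplicity, a divisor of `b` or `a`; by the
count of the critical points there is at most one critical value, and this multiplicity is `w`.

Packages: LUR (Lüroth, polynomial generator) helper86, CMP helper68, RHZ (critical points) helper82, DGR and LIN helper76, ARI helper45.
-/

set_option autoImplicit false

namespace Pool.Agent.Results.MP_2d59ee_ag.FieldDegree

open MvPolynomial Pool.Agent.TH207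

/-- The degree of `ℂ(x, y)` over `ℂ(F, G)`. -/
noncomputable def fieldDegree (F G : MvPolynomial (Fin 2) ℂ) : Cardinal :=
  Module.rank
    (IntermediateField.adjoin ℂ ({algebraMap (MvPolynomial (Fin 2) ℂ)
        (FractionRing (MvPolynomial (Fin 2) ℂ)) F, algebraMap (MvPolynomial (Fin 2) ℂ)
        (FractionRing (MvPolynomial (Fin 2) ℂ)) G} :
          Set (FractionRing (MvPolynomial (Fin 2) ℂ))))
    (FractionRing (MvPolynomial (Fin 2) ℂ))

theorem result (a b m n : ℕ) (hm : 0 < m) (hmn : m < n) (ham : a ∣ m) (han : a ∣ n)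
    (hab : Nat.gcd a b = 1) (ha : 2 ≤ a) (hlt : a < b) (F G : MvPolynomial (Fin 2) ℂ)
    (h1 : convexHull ℝ (insert ((0:ℝ), (0:ℝ))
        ((fun d : Fin 2 →₀ ℕ => ((d 0 : ℝ), (d 1 : ℝ))) '' (↑F.support : Set (Fin 2 →₀ ℕ))))
        = {p : ℝ × ℝ | 0 ≤ p.2 ∧ p.2 ≤ (n : ℝ) ∧ 0 ≤ p.1 ∧ p.1 ≤ (m : ℝ) + (n : ℝ) - p.2})
    (h3 : ∀ i : ℕ, i ≤ n →
        ((X 0 + X 1 : MvPolynomial (Fin 2) ℂ) ^ (n - i)) ∣
          homogeneousComponent (m + n - i) F)
    (h4 : convexHull ℝ (insert ((0:ℝ), (0:ℝ))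
        ((fun d : Fin 2 →₀ ℕ => ((d 0 : ℝ), (d 1 : ℝ))) '' (↑G.support : Set (Fin 2 →₀ ℕ))))
        = {p : ℝ × ℝ | 0 ≤ p.2 ∧ p.2 ≤ ((b * n / a : ℕ) : ℝ) ∧ 0 ≤ p.1 ∧
            p.1 ≤ ((b * m / a : ℕ) : ℝ) + ((b * n / a : ℕ) : ℝ) - p.2})
    (h5 : ∃ c : ℂ, c ≠ 0 ∧ pderiv 0 F * pderiv 1 G - pderiv 1 F * pderiv 0 G = C c) :
    (∃ l w : ℕ, 0 < l ∧ 0 < w ∧ ((w ∣ a ∧ w ∣ b * l - 1) ∨ (w ∣ b ∧ w ∣ a * l - 1)) ∧
      ((a * b * l / w : ℕ) : Cardinal) ≤ fieldDegree F G) ∧
    (b : Cardinal) ≤ fieldDegree F G ∧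
    (¬ a ∣ b - 1 → ((b + 1 : ℕ) : Cardinal) ≤ fieldDegree F G) ∧
    (¬ a ∣ b - 1 → (∀ v : ℕ, v ∣ b → ¬ a ∣ v + 1) →
      ((2 * b : ℕ) : Cardinal) ≤ fieldDegree F G) := by
  obtain ⟨c, hc0, hc⟩ := h5
  obtain ⟨p, rfl⟩ := ham
  obtain ⟨q, rfl⟩ := han
  have ha0 : 0 < a := by omega
  have hp : 0 < p := Nat.pos_of_ne_zero (by rintro rfl; simp at hm)
  have hpq : p < q := Nat.lt_of_mul_lt_mul_left hmn
  have e1 : b * (a * q) / a = b * q := by
    have : b * (a * q) = b * q * a := by ring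
    rw [this, Nat.mul_div_cancel _ ha0]
  have e2 : b * (a * p) / a = b * p := by
    have : b * (a * p) = b * p * a := by ring
    rw [this, Nat.mul_div_cancel _ ha0]
  rw [e1, e2] at h4
  obtain ⟨f1, f2⟩ := Tz.hull (Nat.mul_pos ha0 (by omega)) h1
  obtain ⟨g1, g2⟩ := Tz.hull (Nat.mul_pos (by omega) (by omega)) h4
  obtain ⟨k1, k2, k3⟩ := Pool.Agent.P8H36.JT.tz_te ha (by omega) hab hp hpq hc0 hc f1 f2 h3
      (fun d hd => (g1 d hd).2) g2
  obtain ⟨S, L, ρ, σ, H, l, f, g, c', hS, hH, hl, hc', hfd, hgd, heq, v1, v2, v3, v4⟩ :=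
    Pool.Agent.P8H36.FD.endsP ha (by omega) k1 k2 k3
  obtain ⟨htr, w, hw, hwab, hwl, hli⟩ := Pool.Agent.P8H76.FD.dgr Pool.Agent.P8H86.FD.lur
    Pool.Agent.P8H68.FD.cmp Pool.Agent.P8H82.FD.rhz ℂ f g a b l H c' ha (by omega) hab hl hH hc'
    hfd hgd heq
  have hal : 0 < a * l := Nat.mul_pos ha0 hl
  have hbl : 0 < b * l := Nat.mul_pos (by omega) hl
  have hf0 : f ≠ 0 := by rintro rfl; simp at hfd; omega
  have hg0 : g ≠ 0 := by rintro rfl; simp at hgd; omega
  have hf' : Polynomial.derivative f ≠ 0 := by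
    intro h6
    have := Polynomial.derivative_eq_zero.1 h6
    omega
  have hmain : ((a * b * l / w : ℕ) : Cardinal) ≤ fieldDegree F G := by
    refine Pool.Agent.P8H36.JT.rank_ge
      (fun i => Pool.Agent.P8H36.JT.Tk (a * b * l / w) F G i) fun P hP => ?_
    refine Pool.Agent.P8H36.FD.indep_deg Pool.Agent.P8H76.FD.lin ha0 (by omega) hab hS hH hf0 hg0 hf'
      v1 v2 v3 v4 htr (hli _ (Nat.div_mul_le_self _ _)) P ?_
    have h6 := congrArg (Tz.ph (k := ℂ)) hP
    rw [map_sum, map_zero] at h6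
    rw [← h6]
    apply Finset.sum_congr rfl
    intro i _
    have e3 : aeval ![Tz.ph F, Tz.ph G] (P i) = Tz.ph (aeval ![F, G] (P i)) := by
      rw [Pool.Agent.P8H36.JT.aeval_sum, Pool.Agent.P8H36.JT.aeval_sum, map_sum]
      apply Finset.sum_congr rfl
      intro m _
      rw [map_mul, map_mul, map_pow, map_pow, Tz.ph_C]
    rw [e3, map_mul]
    congr 1
    unfold Pool.Agent.P8H36.JT.Tk
    rw [(Tz.pderiv_ph F).2, (Tz.pderiv_ph G).2, map_mul, map_pow, map_pow, map_mul, map_mul]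
  obtain ⟨r1, r2, r3⟩ := Pool.Agent.P8H45.FD.ari a b l w (a * b * l / w) ha hlt hl hw hwab hwl le_rfl
  have hor : (w ∣ a ∧ w ∣ b * l - 1) ∨ (w ∣ b ∧ w ∣ a * l - 1) := by
    rcases hwab with h | h
    · left
      have e4 : (a + b) * l - 1 = a * l + (b * l - 1) := by rw [add_mul]; omega
      rw [e4] at hwl
      exact ⟨h, (Nat.dvd_add_right (h.mul_right l)).1 hwl⟩
    · right
      have e4 : (a + b) * l - 1 = b * l + (a * l - 1) := by rw [add_mul]; omega
      rw [e4] at hwl
      exact ⟨h, (Nat.dvd_add_right (h.mul_right l)).1 hwl⟩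
  refine ⟨⟨l, w, hl, hw, hor, hmain⟩, le_trans (by exact_mod_cast r1) hmain,
    fun h => le_trans (by exact_mod_cast r2 h) hmain,
    fun h h' => le_trans (by exact_mod_cast r3 h h') hmain⟩

end Pool.Agent.Results.MP_2d59ee_ag.FieldDegree
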