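import Pool.Agent.P8H36.JT.Near

/-!
# Trapezoidal pairs: the corner `(m, n)` is far from the diagonal

Let `(a, b, m, n)` be as in the problem and suppose that conditions 1, 3, 4, 5 hold for `F, G` with
`[F, G]` a nonzero constant. Then `2 a m ≤ (n - m) (n - m - a)`. So the problem has a positive
answer for all `(a, b, m, n)` with `(n - m) (n - m - a) < 2 a m`, for every `b`; with `p = m / a`
and `q = n / a` these are all `q < p + 1/2 + √(2 p + 1/4)`.

Proof: along the edges without denominators of the tree of Newton polygon edges of the starting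
files the quotient of the abscissa and the distance from the diagonal increases. At the edge which
crosses the diagonal, of direction `(ρ, σ)`, with `K = ρ - σ`, value `K A = H + σ d` and distance
`d = H s`, the denominator satisfies `ρ ≤ H`, since the lower end of the edge is strictly below
the diagonal; and in the critical case `K = s = 1` the next vertex, of multiplicity `μ`, satisfies
`μ - H ≥ 3` and `ρ μ ≤ H (1 + ρ)`, so that `3 ρ ≤ H`.
-/

set_option autoImplicit false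

namespace Pool.Agent.Results.MP_2d59ee_ag.NearDiagonal

open MvPolynomial Pool.Agent.TH207

theorem result (a b m n : ℕ) (hm : 0 < m) (hmn : m < n) (ham : a ∣ m) (han : a ∣ n)
    (hab : Nat.gcd a b = 1) (ha : 2 ≤ a) (hlt : a < b)
    (F G : MvPolynomial (Fin 2) ℂ)
    (h1 : convexHull ℝ (insert ((0:ℝ), (0:ℝ))
        ((fun d : Fin 2 →₀ ℕ => ((d 0 : ℝ), (d 1 : ℝ))) '' (↑F.support : Set (Fin 2 →₀ ℕ))))
        = {p : ℝ × ℝ | 0 ≤ p.2 ∧ p.2 ≤ (n : ℝ) ∧ 0 ≤ p.1 ∧ p.1 ≤ (m : ℝ) + (n : ℝ) - p.2})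
    (h3 : ∀ i : ℕ, i ≤ n →
        ((X 0 + X 1 : MvPolynomial (Fin 2) ℂ) ^ (n - i)) ∣
          homogeneousComponent (m + n - i) F)
    (h4 : convexHull ℝ (insert ((0:ℝ), (0:ℝ))
        ((fun d : Fin 2 →₀ ℕ => ((d 0 : ℝ), (d 1 : ℝ))) '' (↑G.support : Set (Fin 2 →₀ ℕ))))
        = {p : ℝ × ℝ | 0 ≤ p.2 ∧ p.2 ≤ ((b * n / a : ℕ) : ℝ) ∧ 0 ≤ p.1 ∧
            p.1 ≤ ((b * m / a : ℕ) : ℝ) + ((b * n / a : ℕ) : ℝ) - p.2})
    (h5 : ∃ c : ℂ, pderiv 0 F * pderiv 1 G - pderiv 1 F * pderiv 0 G = C c)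
    (hnear : ((n : ℤ) - m) * (n - m - a) < 2 * a * m) :
    pderiv 0 F * pderiv 1 G - pderiv 1 F * pderiv 0 G = 0 := by
  obtain ⟨c, hc⟩ := h5
  by_cases hc0 : c = 0
  · rw [hc, hc0, map_zero]
  exfalso
  obtain ⟨p, rfl⟩ := ham
  obtain ⟨q, rfl⟩ := han
  have ha0 : 0 < a := by omega
  have hp : 0 < p := Nat.pos_of_ne_zero (by rintro rfl; simp at hm)
  have hpq : p < q := Nat.lt_of_mul_lt_mul_left hmn
  have e1 : b * (a * q) / a = b * q := by
    have : b * (a * q) = b * q * a := by ring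
    rw [this, Nat.mul_div_cancel _ ha0]
  have e2 : b * (a * p) / a = b * p := by
    have : b * (a * p) = b * p * a := by ring
    rw [this, Nat.mul_div_cancel _ ha0]
  rw [e1, e2] at h4
  obtain ⟨f1, f2⟩ := Tz.hull (Nat.mul_pos ha0 (by omega)) h1
  obtain ⟨g1, g2⟩ := Tz.hull (Nat.mul_pos (by omega) (by omega)) h4
  have h6 := Pool.Agent.P8H36.JT.tz_far ha (by omega) hab hp hpq hc0 hc f1 f2 h3
      (fun d hd => (g1 d hd).2) g2
  unfold Pool.Agent.P8H36.JT.Far at h6
  have h7 : (0 : ℤ) ≤ (a : ℤ) ^ 2 := by positivity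
  have h8 := mul_le_mul_of_nonneg_left h6 h7
  push_cast at hnear
  have h9 : ((a : ℤ) * q - a * p) * (a * q - a * p - a) = a ^ 2 * ((q - p) * (q - p - 1)) := by
    ring
  have h10 : 2 * (a : ℤ) * (a * p) = a ^ 2 * (2 * p) := by ring
  rw [h9, h10] at hnear
  exact absurd hnear (not_lt.2 h8)

end Pool.Agent.Results.MP_2d59ee_ag.NearDiagonal
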