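import Pool.Agent.P8H36.JT.Lines

/-!
# Trapezoidal pairs: the exceptional pairs `(a, b)` lie on explicit lines

`Exc p q` is the set of the pairs `(a, b)` for which there are integers `t, v, w ≥ 1` with
`v ≤ p - 1`, `v t + w ≤ p ^ 2 - 3 p + 1`, `v t + w ≤ q - p - 1` and
`v t b = w a + t` or `v t a = w b + t`. These are the pairs on finitely many lines for given `p`.

The problem has a positive answer for all `(a, b, m, n)` with `(a, b)` outside `Exc (m / a) (n / a)`,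
and the number of the pairs `2 ≤ a < b ≤ X` which are exceptional for some `m ≤ P a` and some `n`
is at most `2 P ^ 4 (1 + log P) X`.
-/

set_option autoImplicit false

namespace Pool.Agent.Results.MP_2d59ee_ag.ThinExceptionalSet

open MvPolynomial Pool.Agent.TH207

/-- Pairs `(a, b)` on one of the exceptional lines. -/
def Exc (p q : ℕ) : Set (ℕ × ℕ) :=
  {z | ∃ t v w : ℕ, 1 ≤ t ∧ 1 ≤ v ∧ 1 ≤ w ∧ v + 1 ≤ p ∧ v * t + w + 3 * p ≤ p ^ 2 + 1 ∧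
    v * t + w + p + 1 ≤ q ∧
    (v * t * z.2 = w * z.1 + t ∨ v * t * z.1 = w * z.2 + t)}

theorem result :
    (∀ (a b m n : ℕ), 0 < m → m < n → a ∣ m → a ∣ n → Nat.gcd a b = 1 → 2 ≤ a → a < b →
      (a, b) ∉ Exc (m / a) (n / a) →
      ∀ F G : MvPolynomial (Fin 2) ℂ,
      convexHull ℝ (insert ((0:ℝ), (0:ℝ))
        ((fun d : Fin 2 →₀ ℕ => ((d 0 : ℝ), (d 1 : ℝ))) '' (↑F.support : Set (Fin 2 →₀ ℕ))))
        = {p : ℝ × ℝ | 0 ≤ p.2 ∧ p.2 ≤ (n : ℝ) ∧ 0 ≤ p.1 ∧ p.1 ≤ (m : ℝ) + (n : ℝ) - p.2} →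
      (∀ i : ℕ, i ≤ n →
        ((X 0 + X 1 : MvPolynomial (Fin 2) ℂ) ^ (n - i)) ∣
          homogeneousComponent (m + n - i) F) →
      convexHull ℝ (insert ((0:ℝ), (0:ℝ))
        ((fun d : Fin 2 →₀ ℕ => ((d 0 : ℝ), (d 1 : ℝ))) '' (↑G.support : Set (Fin 2 →₀ ℕ))))
        = {p : ℝ × ℝ | 0 ≤ p.2 ∧ p.2 ≤ ((b * n / a : ℕ) : ℝ) ∧ 0 ≤ p.1 ∧
            p.1 ≤ ((b * m / a : ℕ) : ℝ) + ((b * n / a : ℕ) : ℝ) - p.2} →
      (∃ c : ℂ, pderiv 0 F * pderiv 1 G - pderiv 1 F * pderiv 0 G = C c) →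
      pderiv 0 F * pderiv 1 G - pderiv 1 F * pderiv 0 G = 0) ∧
    (∀ P N : ℕ,
      (({z : ℕ × ℕ | (∃ p q, p ≤ P ∧ z ∈ Exc p q) ∧ 2 ≤ z.1 ∧ z.1 < z.2 ∧ z.2 ≤ N}.ncard : ℕ) : ℝ)
        ≤ 2 * P ^ 4 * (1 + Real.log P) * N) := by
  refine ⟨?_, fun P N => Pool.Agent.P8H36.JT.count P N⟩
  intro a b m n hm hmn ham han hab ha hlt hE F G h1 h3 h4 h5
  obtain ⟨c, hc⟩ := h5
  by_cases hc0 : c = 0
  · rw [hc, hc0, map_zero]
  exfalso
  obtain ⟨p, rfl⟩ := ham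
  obtain ⟨q, rfl⟩ := han
  have ha0 : 0 < a := by omega
  have hp : 0 < p := Nat.pos_of_ne_zero (by rintro rfl; simp at hm)
  have hpq : p < q := Nat.lt_of_mul_lt_mul_left hmn
  have e1 : b * (a * q) / a = b * q := by
    have : b * (a * q) = b * q * a := by ring
    rw [this, Nat.mul_div_cancel _ ha0]
  have e2 : b * (a * p) / a = b * p := by
    have : b * (a * p) = b * p * a := by ring
    rw [this, Nat.mul_div_cancel _ ha0]
  rw [e1, e2] at h4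
  rw [Nat.mul_div_cancel_left _ ha0, Nat.mul_div_cancel_left _ ha0] at hE
  obtain ⟨f1, f2⟩ := Tz.hull (Nat.mul_pos ha0 (by omega)) h1
  obtain ⟨g1, g2⟩ := Tz.hull (Nat.mul_pos (by omega) (by omega)) h4
  exact hE (Pool.Agent.P8H36.JT.exc_of_Lv ha (by omega)
    (Pool.Agent.P8H36.JT.tz_rel ha (by omega) hab hp hpq hc0 hc f1 f2 h3
      (fun d hd => (g1 d hd).2) g2))

end Pool.Agent.Results.MP_2d59ee_ag.ThinExceptionalSet
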